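import Pool.Agent.helper47.T1.SpecE1
import Pool.Agent.helper65.RS.BK3

/-!
# MP_07c750, project T1, block E: row QB3 (effective version of BK3)
-/

set_option autoImplicit false

open scoped MatrixGroups ContDiff Topology UpperHalfPlane ComplexConjugate
open UpperHalfPlane MeasureTheory Filter Set

namespace Pool.Agent.T1

open Pool.Agent.RS Pool.Agent.MS

noncomputable section

/-- **QB3.** -/
theorem QB3_proof (h1 : QB1_stmt) : QB3_stmt := by
  obtain ⟨K1, hK1, hb⟩ := h1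
  refine ⟨2 * K1 ^ 2, by nlinarith [sq_nonneg (K1 - 1)], fun C M hCM r s hr hs => ?_⟩
  have hC : CB C := hCM.cb
  have hr0 : 0 < r := by linarith
  have hb' : ∀ r s t : ℝ, 1 ≤ r → |s - r| ≤ r / 100 → max r |t| * ‖bI C r s t‖ ≤ K1 * M := hb C M hCM
  have hbd : ∀ v : ℝ, (r * ‖bI C r s (r * v)‖) ^ 2 ≤ 2 * K1 ^ 2 * M ^ 2 * (1 + v ^ 2)⁻¹ := by
    intro v
    have h2 := BK3_bd hb' hr hs v
    have e : 2 * (K1 * M) ^ 2 * (1 + v ^ 2)⁻¹ = 2 * K1 ^ 2 * M ^ 2 * (1 + v ^ 2)⁻¹ := by ring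
    rw [← e]
    exact h2
  have hInt : Integrable (fun v : ℝ => 2 * K1 ^ 2 * M ^ 2 * (1 + v ^ 2)⁻¹) := integrable_inv_one_add_sq.const_mul _
  have hmeas : AEStronglyMeasurable (fun v : ℝ => (r * ‖bI C r s (r * v)‖) ^ 2) volume := by
    have h2 : StronglyMeasurable (fun v : ℝ => bI C r s (r * v)) :=
      (BK3_meas hC r s).comp_measurable (measurable_const_mul r)
    exact ((h2.norm.const_mul r).pow 2).aestronglyMeasurable
  have hint : Integrable (fun v : ℝ => (r * ‖bI C r s (r * v)‖) ^ 2) := by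
    refine hInt.mono' hmeas (Eventually.of_forall fun v => ?_)
    rw [Real.norm_eq_abs, abs_of_nonneg (by positivity)]
    exact hbd v
  refine ⟨?_, hint, hbd, BK3_scale hr0, ?_⟩
  · have h2 : Integrable (fun v : ℝ => ‖bI C r s (r * v)‖ ^ 2) := by
      have h3 := hint.const_mul ((r ^ 2)⁻¹)
      refine h3.congr (Eventually.of_forall fun v => ?_)
      simp only [mul_pow]
      rw [← mul_assoc, inv_mul_cancel₀ (by positivity), one_mul]
    exact (integrable_comp_mul_left_iff (fun t => ‖bI C r s t‖ ^ 2) hr0.ne').mp h2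
  · rw [BK3_scale hr0]
    have h2 : ∫ v : ℝ, (r * ‖bI C r s (r * v)‖) ^ 2 ≤ ∫ v : ℝ, 2 * K1 ^ 2 * M ^ 2 * (1 + v ^ 2)⁻¹ :=
      integral_mono hint hInt hbd
    rw [integral_const_mul, integral_univ_inv_one_add_sq] at h2
    have h3 := mul_le_mul_of_nonneg_left h2 (by positivity : 0 ≤ 1 / Real.pi)
    have h4 : 1 / Real.pi * (2 * K1 ^ 2 * M ^ 2 * Real.pi) = 2 * K1 ^ 2 * M ^ 2 := by
      have := Real.pi_ne_zero
      field_simp
    linarith

end

end Pool.Agent.T1
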